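import Mathlib
import Pool.Agent.Y522.NA.StmP
import Pool.Agent.Y522.Tools

/-!
# Paths of local diffeomorphisms which are continuous in the `C¹` topology can be made smooth
(proof by helper87)
-/

set_option autoImplicit false

open Set Filter Topology Metric Function
open scoped Manifold ContDiff

noncomputable section

namespace Pool.Agent.Y87.NP

open Pool.Agent.Y522 Pool.Agent.Y522.NA

/-- the local lemma in Euclidean space -/
lemma local_euclid {n q : ℕ} (g : ℝ → E n → E q) (t₀ : ℝ)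
    (hs : ∀ᶠ w in 𝓝 (t₀, (0 : E n)), ContDiffAt ℝ ∞ (g w.1) w.2)
    (hc : ContinuousAt (fun w : ℝ × E n => g w.1 w.2) (t₀, 0))
    (hd : ContinuousAt (fun w : ℝ × E n => fderiv ℝ (g w.1) w.2) (t₀, 0))
    (φ : E q → E n) (hφ : ∀ᶠ w in 𝓝 (g t₀ 0), ContDiffAt ℝ ∞ φ w) (L : E n ≃L[ℝ] E n)
    (hL : HasFDerivAt (fun z => φ (g t₀ z)) (L : E n →L[ℝ] E n) 0) (l₀ : ℝ) :
    ∀ᶠ v : (ℝ × ℝ) × (ℝ × E n) in 𝓝 ((t₀, t₀), (l₀, 0)),
      (ContDiffAt ℝ ∞ (fun z => (1 - v.2.1) • g v.1.1 z + v.2.1 • g v.1.2 z) v.2.2) ∧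
      LD n (fun z => φ ((1 - v.2.1) • g v.1.1 z + v.2.1 • g v.1.2 z)) v.2.2 := by
  set v₀ : (ℝ × ℝ) × (ℝ × E n) := ((t₀, t₀), (l₀, 0)) with hv₀
  have ha : Tendsto (fun v : (ℝ × ℝ) × (ℝ × E n) => (v.1.1, v.2.2)) (𝓝 v₀) (𝓝 (t₀, (0 : E n))) :=
    Continuous.tendsto' (by fun_prop) _ _ rfl
  have hb : Tendsto (fun v : (ℝ × ℝ) × (ℝ × E n) => (v.1.2, v.2.2)) (𝓝 v₀) (𝓝 (t₀, (0 : E n))) :=
    Continuous.tendsto' (by fun_prop) _ _ rfl
  have hl : Tendsto (fun v : (ℝ × ℝ) × (ℝ × E n) => v.2.1) (𝓝 v₀) (𝓝 l₀) :=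
    Continuous.tendsto' (by fun_prop) _ _ rfl
  have hl' : Tendsto (fun v : (ℝ × ℝ) × (ℝ × E n) => 1 - v.2.1) (𝓝 v₀) (𝓝 (1 - l₀)) :=
    Continuous.tendsto' (by fun_prop) _ _ rfl
  have hH : Tendsto (fun v : (ℝ × ℝ) × (ℝ × E n) =>
      (1 - v.2.1) • g v.1.1 v.2.2 + v.2.1 • g v.1.2 v.2.2) (𝓝 v₀) (𝓝 (g t₀ 0)) := by
    have h1 := (hl'.smul (hc.tendsto.comp ha)).add (hl.smul (hc.tendsto.comp hb))
    have h2 : (1 - l₀) • g t₀ 0 + l₀ • g t₀ 0 = g t₀ 0 := by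
      rw [← add_smul]; simp
    simpa [Function.comp_def, h2] using h1
  have hφ0 : ContDiffAt ℝ ∞ φ (g t₀ 0) := hφ.self_of_nhds
  have hφd : ContinuousAt (fderiv ℝ φ) (g t₀ 0) :=
    (hφ0.fderiv_right (m := 0) (by simp)).continuousAt
  have hg0 : ContDiffAt ℝ ∞ (g t₀) 0 := hs.self_of_nhds
  -- the derivative
  have hD : Tendsto (fun v : (ℝ × ℝ) × (ℝ × E n) =>
      (fderiv ℝ φ ((1 - v.2.1) • g v.1.1 v.2.2 + v.2.1 • g v.1.2 v.2.2)).comp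
        ((1 - v.2.1) • fderiv ℝ (g v.1.1) v.2.2 + v.2.1 • fderiv ℝ (g v.1.2) v.2.2)) (𝓝 v₀)
      (𝓝 (L : E n →L[ℝ] E n)) := by
    have h1 := (hl'.smul (hd.tendsto.comp ha)).add (hl.smul (hd.tendsto.comp hb))
    have h2 : (1 - l₀) • fderiv ℝ (g t₀) 0 + l₀ • fderiv ℝ (g t₀) 0 = fderiv ℝ (g t₀) 0 := by
      module
    have hcc : Continuous (fun p : (E q →L[ℝ] E n) × (E n →L[ℝ] E q) => p.1.comp p.2) :=
      continuous_fst.clm_comp continuous_snd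
    have h3 := (hcc.tendsto (fderiv ℝ φ (g t₀ 0), (1 - l₀) • fderiv ℝ (g t₀) 0 +
      l₀ • fderiv ℝ (g t₀) 0)).comp ((hφd.tendsto.comp hH).prodMk_nhds h1)
    have h4 : (fderiv ℝ φ (g t₀ 0)).comp (fderiv ℝ (g t₀) 0) = (L : E n →L[ℝ] E n) := by
      have h5 : HasFDerivAt (fun z => φ (g t₀ z)) ((fderiv ℝ φ (g t₀ 0)).comp (fderiv ℝ (g t₀) 0)) 0 :=
        (hφ0.differentiableAt (by simp)).hasFDerivAt.comp (0 : E n)
          (hg0.differentiableAt (by simp)).hasFDerivAt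
      exact h5.unique hL
    rw [h2, h4] at h3
    exact h3
  have hinv := hD.eventually (ContinuousLinearEquiv.nhds L)
  have hsa := ha.eventually hs.eventually_nhds
  have hsb := hb.eventually hs.eventually_nhds
  have hφ' := hH.eventually hφ.eventually_nhds
  filter_upwards [hinv, hsa, hsb, hφ'] with v h1 h2 h3 h4
  have e2 : ∀ᶠ y in 𝓝 v.2.2, ContDiffAt ℝ ∞ (g v.1.1) y := by
    have h5 : Tendsto (fun y : E n => (v.1.1, y)) (𝓝 v.2.2) (𝓝 (v.1.1, v.2.2)) :=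
      Continuous.tendsto' (by fun_prop) _ _ rfl
    exact h5.eventually h2
  have e3 : ∀ᶠ y in 𝓝 v.2.2, ContDiffAt ℝ ∞ (g v.1.2) y := by
    have h5 : Tendsto (fun y : E n => (v.1.2, y)) (𝓝 v.2.2) (𝓝 (v.1.2, v.2.2)) :=
      Continuous.tendsto' (by fun_prop) _ _ rfl
    exact h5.eventually h3
  have e4 : ∀ᶠ y in 𝓝 v.2.2, ContDiffAt ℝ ∞
      (fun z => (1 - v.2.1) • g v.1.1 z + v.2.1 • g v.1.2 z) y := by
    filter_upwards [e2, e3] with y h5 h6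
    exact (h5.const_smul _).add (h6.const_smul _)
  have e5 : ContDiffAt ℝ ∞ (fun z => (1 - v.2.1) • g v.1.1 z + v.2.1 • g v.1.2 z) v.2.2 :=
    e4.self_of_nhds
  refine ⟨e5, ?_⟩
  have e6 : ∀ᶠ y in 𝓝 v.2.2, ContDiffAt ℝ ∞ φ ((1 - v.2.1) • g v.1.1 y + v.2.1 • g v.1.2 y) :=
    e5.continuousAt.eventually h4
  have e7 : ∀ᶠ y in 𝓝 v.2.2, ContDiffAt ℝ ∞
      (fun z => φ ((1 - v.2.1) • g v.1.1 z + v.2.1 • g v.1.2 z)) y := by
    filter_upwards [e4, e6] with y h5 h6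
    exact ContDiffAt.comp y h6 h5
  obtain ⟨M, hM⟩ := h1
  refine LD_of_contDiffAt e7 M ?_
  rw [hM]
  have h7 : HasFDerivAt (fun z => (1 - v.2.1) • g v.1.1 z + v.2.1 • g v.1.2 z)
      ((1 - v.2.1) • fderiv ℝ (g v.1.1) v.2.2 + v.2.1 • fderiv ℝ (g v.1.2) v.2.2) v.2.2 :=
    HasFDerivAt.fun_add
      ((e2.self_of_nhds.differentiableAt (by simp)).hasFDerivAt.fun_const_smul (1 - v.2.1))
      ((e3.self_of_nhds.differentiableAt (by simp)).hasFDerivAt.fun_const_smul v.2.1)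
  exact (e6.self_of_nhds.differentiableAt (by simp)).hasFDerivAt.comp v.2.2 h7

section manifold

variable {n q : ℕ} {X Y : Type} [TopologicalSpace X] [ChartedSpace (E n) X]
  [TopologicalSpace Y] [ChartedSpace (E n) Y]

/-- the property wanted -/
def Good (n q : ℕ) {X Y : Type} [TopologicalSpace X] [ChartedSpace (E n) X]
    [TopologicalSpace Y] [ChartedSpace (E n) Y] (π : E q → Y) (G : ℝ → X → E q)
    (v : (ℝ × ℝ) × (ℝ × X)) : Prop :=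
  ContMDiffAt (𝓡 q) (𝓡 n) ∞ π ((1 - v.2.1) • G v.1.1 v.2.2 + v.2.1 • G v.1.2 v.2.2) ∧
    LD n (fun x => π ((1 - v.2.1) • G v.1.1 x + v.2.1 • G v.1.2 x)) v.2.2

lemma local_manifold (π : E q → Y) (G : ℝ → X → E q) (t₀ : ℝ) (x₀ : X)
    (hG : C1At n q G t₀ x₀)
    (hπ : ∀ᶠ w in 𝓝 (G t₀ x₀), ContMDiffAt (𝓡 q) (𝓡 n) ∞ π w)
    (hLD : LD n (fun x => π (G t₀ x)) x₀) (l₀ : ℝ) :
    ∀ᶠ v : (ℝ × ℝ) × (ℝ × X) in 𝓝 ((t₀, t₀), (l₀, x₀)), Good n q π G v := by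
  obtain ⟨A, hA0, hA, hs, hc, hd⟩ := hG
  set g : ℝ → E n → E q := fun t z => G t (A z) with hg
  have hg0 : g t₀ 0 = G t₀ x₀ := by rw [hg]; simp only [hA0]
  have hf0 : LD n (fun z => π (g t₀ z)) 0 := by
    have h1 : LD n (fun x => π (G t₀ x)) (A 0) := by rw [hA0]; exact hLD
    exact LD.comp_fun (g := fun x => π (G t₀ x)) (f := A) h1 hA
  obtain ⟨p₀, hp₀, hp0, hpf, hfp⟩ := hf0.exists_inverse
  have hπ0 : ContMDiffAt (𝓡 q) (𝓡 n) ∞ π (g t₀ 0) := by rw [hg0]; exact hπ.self_of_nhds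
  have hφ : ∀ᶠ w in 𝓝 (g t₀ 0), ContDiffAt ℝ ∞ (fun w => p₀ (π w)) w := by
    have h1 : ∀ᶠ w in 𝓝 (g t₀ 0), LD n p₀ (π w) := hπ0.continuousAt.eventually hp₀.eventually
    rw [hg0] at h1 ⊢
    filter_upwards [h1, hπ] with w h2 h3
    exact contMDiffAt_iff_contDiffAt.1 (h2.contMDiffAt.comp w h3)
  have hL : HasFDerivAt (fun z => p₀ (π (g t₀ z)))
      ((ContinuousLinearEquiv.refl ℝ (E n) : E n ≃L[ℝ] E n) : E n →L[ℝ] E n) 0 := by
    refine (hasFDerivAt_id (0 : E n)).congr_of_eventuallyEq ?_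
    exact hpf
  have h1 := local_euclid g t₀ hs hc hd (fun w => p₀ (π w)) hφ _ hL l₀
  -- the point tends to `g t₀ 0`
  have ha : Tendsto (fun v : (ℝ × ℝ) × (ℝ × E n) => (v.1.1, v.2.2)) (𝓝 ((t₀, t₀), (l₀, 0)))
      (𝓝 (t₀, (0 : E n))) := Continuous.tendsto' (by fun_prop) _ _ rfl
  have hb : Tendsto (fun v : (ℝ × ℝ) × (ℝ × E n) => (v.1.2, v.2.2)) (𝓝 ((t₀, t₀), (l₀, 0)))
      (𝓝 (t₀, (0 : E n))) := Continuous.tendsto' (by fun_prop) _ _ rfl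
  have hl : Tendsto (fun v : (ℝ × ℝ) × (ℝ × E n) => v.2.1) (𝓝 ((t₀, t₀), (l₀, 0))) (𝓝 l₀) :=
    Continuous.tendsto' (by fun_prop) _ _ rfl
  have hl' : Tendsto (fun v : (ℝ × ℝ) × (ℝ × E n) => 1 - v.2.1) (𝓝 ((t₀, t₀), (l₀, 0)))
      (𝓝 (1 - l₀)) := Continuous.tendsto' (by fun_prop) _ _ rfl
  have hH : Tendsto (fun v : (ℝ × ℝ) × (ℝ × E n) =>
      (1 - v.2.1) • g v.1.1 v.2.2 + v.2.1 • g v.1.2 v.2.2) (𝓝 ((t₀, t₀), (l₀, 0)))
      (𝓝 (g t₀ 0)) := by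
    have h1 := (hl'.smul (hc.tendsto.comp ha)).add (hl.smul (hc.tendsto.comp hb))
    have h2 : (1 - l₀) • g t₀ 0 + l₀ • g t₀ 0 = g t₀ 0 := by
      rw [← add_smul]; simp
    change Tendsto _ _ (𝓝 ((1 - l₀) • g t₀ 0 + l₀ • g t₀ 0)) at h1
    rw [h2] at h1
    exact h1
  have h2 : ∀ᶠ v : (ℝ × ℝ) × (ℝ × E n) in 𝓝 ((t₀, t₀), (l₀, 0)),
      ContMDiffAt (𝓡 q) (𝓡 n) ∞ π ((1 - v.2.1) • g v.1.1 v.2.2 + v.2.1 • g v.1.2 v.2.2) := by
    apply hH.eventually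
    rw [hg0]
    exact hπ
  have hπH : Tendsto (fun v : (ℝ × ℝ) × (ℝ × E n) =>
      π ((1 - v.2.1) • g v.1.1 v.2.2 + v.2.1 • g v.1.2 v.2.2)) (𝓝 ((t₀, t₀), (l₀, 0)))
      (𝓝 (π (g t₀ 0))) := hπ0.continuousAt.tendsto.comp hH
  have h3 := hπH.eventually hfp.eventually_nhds
  have h4 : ∀ᶠ v : (ℝ × ℝ) × (ℝ × E n) in 𝓝 ((t₀, t₀), (l₀, 0)),
      LD n (fun z => π (g t₀ z))
        (p₀ (π ((1 - v.2.1) • g v.1.1 v.2.2 + v.2.1 • g v.1.2 v.2.2))) := by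
    have h5 : Tendsto (fun v : (ℝ × ℝ) × (ℝ × E n) =>
      p₀ (π ((1 - v.2.1) • g v.1.1 v.2.2 + v.2.1 • g v.1.2 v.2.2))) (𝓝 ((t₀, t₀), (l₀, 0)))
      (𝓝 (p₀ (π (g t₀ 0)))) := hp₀.continuousAt.tendsto.comp hπH
    rw [hp0] at h5
    exact h5.eventually hf0.eventually
  have h5 : ∀ᶠ v : (ℝ × ℝ) × (ℝ × E n) in 𝓝 ((t₀, t₀), (l₀, 0)),
      ContMDiffAt (𝓡 q) (𝓡 n) ∞ π ((1 - v.2.1) • g v.1.1 v.2.2 + v.2.1 • g v.1.2 v.2.2) ∧
      LD n (fun z => π ((1 - v.2.1) • g v.1.1 z + v.2.1 • g v.1.2 z)) v.2.2 := by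
    filter_upwards [h1, h2, h3, h4] with v k1 k2 k3 k4
    refine ⟨k2, ?_⟩
    have k5 : LD n (fun z => (fun z => π (g t₀ z))
        ((fun z => p₀ (π ((1 - v.2.1) • g v.1.1 z + v.2.1 • g v.1.2 z))) z)) v.2.2 :=
      LD.comp_fun (g := fun z => π (g t₀ z))
        (f := fun z => p₀ (π ((1 - v.2.1) • g v.1.1 z + v.2.1 • g v.1.2 z))) k4 k1.2
    refine k5.congr ?_
    have k6 : ContinuousAt (fun z => π ((1 - v.2.1) • g v.1.1 z + v.2.1 • g v.1.2 z)) v.2.2 :=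
      ContinuousAt.comp (f := fun z => (1 - v.2.1) • g v.1.1 z + v.2.1 • g v.1.2 z)
        k2.continuousAt k1.1.continuousAt
    filter_upwards [k6.eventually k3] with z hz
    exact hz.symm
  -- transfer to `X`
  obtain ⟨pA, hpA, hpA0, -, hApA⟩ := hA.exists_inverse
  rw [hA0] at hpA hpA0 hApA
  have hT : Tendsto (fun v : (ℝ × ℝ) × (ℝ × X) => ((v.1, (v.2.1, pA v.2.2)) :
      (ℝ × ℝ) × (ℝ × E n))) (𝓝 ((t₀, t₀), (l₀, x₀))) (𝓝 ((t₀, t₀), (l₀, 0))) := by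
    have k1 : Tendsto (fun v : (ℝ × ℝ) × (ℝ × X) => v.2.2) (𝓝 ((t₀, t₀), (l₀, x₀))) (𝓝 x₀) :=
      Continuous.tendsto' (by fun_prop) _ _ rfl
    have k2 : Tendsto (fun v : (ℝ × ℝ) × (ℝ × X) => pA v.2.2) (𝓝 ((t₀, t₀), (l₀, x₀)))
        (𝓝 0) := by
      have := hpA.continuousAt.tendsto.comp k1
      rw [hpA0] at this
      exact this
    have k3 : Tendsto (fun v : (ℝ × ℝ) × (ℝ × X) => v.2.1) (𝓝 ((t₀, t₀), (l₀, x₀))) (𝓝 l₀) :=
      Continuous.tendsto' (by fun_prop) _ _ rfl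
    have k4 : Tendsto (fun v : (ℝ × ℝ) × (ℝ × X) => v.1) (𝓝 ((t₀, t₀), (l₀, x₀)))
        (𝓝 (t₀, t₀)) := Continuous.tendsto' (by fun_prop) _ _ rfl
    exact k4.prodMk_nhds (k3.prodMk_nhds k2)
  have hX : Tendsto (fun v : (ℝ × ℝ) × (ℝ × X) => v.2.2) (𝓝 ((t₀, t₀), (l₀, x₀))) (𝓝 x₀) :=
    Continuous.tendsto' (by fun_prop) _ _ rfl
  filter_upwards [hT.eventually h5, hX.eventually hpA.eventually,
    hX.eventually hApA.eventually_nhds] with v k1 k2 k3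
  have k4 : A (pA v.2.2) = v.2.2 := k3.self_of_nhds
  refine ⟨?_, ?_⟩
  · have := k1.1
    simp only [hg, k4] at this
    exact this
  · have k5 := LD.comp_fun (g := fun z => π ((1 - v.2.1) • g v.1.1 z + v.2.1 • g v.1.2 z))
      (f := pA) k1.2 k2
    refine k5.congr ?_
    filter_upwards [k3] with x hx
    simp only [hg, hx]

lemma smooth_slice (G : ℝ → X → E q) (a : ℝ) (x : X) (hG : C1At n q G a x) :
    ContMDiffAt (𝓡 n) (𝓡 q) ∞ (G a) x := by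
  obtain ⟨A, hA0, hA, hs, -, -⟩ := hG
  obtain ⟨pA, hpA, hpA0, -, hApA⟩ := hA.exists_inverse
  rw [hA0] at hpA hpA0 hApA
  have h1 : ContDiffAt ℝ ∞ (fun z => G a (A z)) 0 := hs.self_of_nhds
  have h2 : ContMDiffAt (𝓡 n) (𝓡 q) ∞ (fun z => G a (A z)) (pA x) := by
    rw [hpA0]
    exact contMDiffAt_iff_contDiffAt.2 h1
  have h3 := h2.comp x hpA.contMDiffAt
  refine h3.congr_of_eventuallyEq ?_
  filter_upwards [hApA] with y hy
  simp only [Function.comp, hy]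

end manifold

/-- telescoping with weights `1, …, 1, w, 0, …, 0` -/
lemma tele {V : Type*} [AddCommGroup V] [Module ℝ V] (N i : ℕ) (hi : i < N) (w : ℕ → ℝ)
    (c : ℕ → V) (h1 : ∀ j < i, w j = 1) (h0 : ∀ j, i < j → j < N → w j = 0) :
    c 0 + ∑ j ∈ Finset.range N, w j • (c (j + 1) - c j) = (1 - w i) • c i + w i • c (i + 1) := by
  obtain ⟨m, rfl⟩ := Nat.exists_eq_add_of_lt hi
  have e1 : i + m + 1 = (i + 1) + m := by ring
  rw [e1, Finset.sum_range_add, Finset.sum_range_succ]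
  have e2 : ∑ j ∈ Finset.range i, w j • (c (j + 1) - c j) = c i - c 0 := by
    rw [← Finset.sum_range_sub]
    refine Finset.sum_congr rfl fun j hj => ?_
    rw [h1 j (Finset.mem_range.mp hj), one_smul]
  have e3 : ∑ j ∈ Finset.range m, w (i + 1 + j) • (c (i + 1 + j + 1) - c (i + 1 + j)) = 0 := by
    refine Finset.sum_eq_zero fun j hj => ?_
    rw [h0 (i + 1 + j) (by omega) (by have := Finset.mem_range.mp hj; omega), zero_smul]
  rw [e2, e3, smul_sub, sub_smul, one_smul]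
  abel

lemma exists_index (N : ℕ) (hN : 0 < N) (t : ℝ) : ∃ i < N, ∀ j < N,
    (j < i → 1 ≤ (N : ℝ) * t - j) ∧ (i < j → (N : ℝ) * t - j ≤ 0) := by
  refine ⟨min ⌊(N : ℝ) * t⌋₊ (N - 1), by omega, fun j hj => ⟨fun h => ?_, fun h => ?_⟩⟩
  · have h1 : j + 1 ≤ ⌊(N : ℝ) * t⌋₊ := by omega
    have h2 := (Nat.le_floor_iff' (Nat.succ_ne_zero j)).mp h1
    push_cast at h2
    linarith
  · have h1 : ⌊(N : ℝ) * t⌋₊ < j := by omega
    have h2 := (Nat.floor_lt' (by omega)).mp h1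
    linarith

theorem sp : StSP := by
  intro n q X Y _ _ _ _ _ _ _ _ _ π G hG hπ hLD
  -- uniform version
  have hU : ∀ t₀ : ℝ, ∃ δ : ℝ, 0 < δ ∧ ∀ a b : ℝ, a ∈ ball t₀ δ → b ∈ ball t₀ δ →
      ∀ l ∈ Icc (0 : ℝ) 1, ∀ x : X, Good n q π G ((a, b), (l, x)) := by
    intro t₀
    have h1 : ∀ᶠ ab : ℝ × ℝ in 𝓝 (t₀, t₀), ∀ y ∈ (Icc (0 : ℝ) 1 ×ˢ (univ : Set X)),
        Good n q π G (ab, y) := by
      refine IsCompact.eventually_forall_of_forall_eventually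
        (isCompact_Icc.prod isCompact_univ) ?_
      rintro ⟨l₀, x₀⟩ -
      exact local_manifold π G t₀ x₀ (hG t₀ x₀) (hπ t₀ x₀) (hLD t₀ x₀) l₀
    rw [nhds_prod_eq] at h1
    obtain ⟨p, hp, r, hr, hpr⟩ := eventually_prod_iff.mp h1
    obtain ⟨δ, hδ, hδ'⟩ := Metric.eventually_nhds_iff_ball.mp (hp.and hr)
    exact ⟨δ, hδ, fun a b ha hb l hl x => hpr (hδ' a ha).1 (hδ' b hb).2 (l, x) ⟨hl, mem_univ _⟩⟩
  choose δ hδ hgood using hU
  obtain ⟨η, hη, hcov⟩ := lebesgue_number_lemma_of_metric (s := Icc (0 : ℝ) 1)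
    (c := fun t : ℝ => ball t (δ t)) isCompact_Icc (fun t => isOpen_ball)
    (fun t _ => mem_iUnion.mpr ⟨t, mem_ball_self (hδ t)⟩)
  obtain ⟨N, hN⟩ := exists_nat_one_div_lt hη
  set M : ℕ := N + 1 with hM
  have hM0 : 0 < M := Nat.succ_pos N
  have hM0' : (0 : ℝ) < M := by exact_mod_cast hM0
  have hMη : 1 / (M : ℝ) < η := by rw [hM]; push_cast; exact hN
  have hgood' : ∀ i < M, ∀ l ∈ Icc (0 : ℝ) 1, ∀ x : X,
      Good n q π G (((i : ℝ) / M, ((i + 1 : ℕ) : ℝ) / M), (l, x)) := by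
    intro i hi l hl x
    have h1 : (i : ℝ) / M ∈ Icc (0 : ℝ) 1 := by
      refine ⟨by positivity, ?_⟩
      rw [div_le_one hM0']
      exact_mod_cast hi.le
    obtain ⟨t, ht⟩ := hcov _ h1
    refine hgood t _ _ (ht (mem_ball_self hη)) (ht ?_) l hl x
    rw [mem_ball, Real.dist_eq]
    have h2 : ((i + 1 : ℕ) : ℝ) / M - (i : ℝ) / M = 1 / M := by push_cast; ring
    rw [h2, abs_of_pos (by positivity)]
    exact hMη
  -- the path
  set G' : ℝ × X → E q := fun w => G ((0 : ℕ) / M) w.2 + ∑ i ∈ Finset.range M,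
    Real.smoothTransition ((M : ℝ) * w.1 - i) • (G (((i + 1 : ℕ) : ℝ) / M) w.2 - G ((i : ℝ) / M) w.2)
    with hG'
  have hslice : ∀ a : ℝ, ContMDiff (𝓡 n) (𝓡 q) ∞ (G a) := fun a x =>
    smooth_slice G a x (hG a x)
  have hsnd : ∀ a : ℝ, ContMDiff ((𝓘(ℝ, ℝ)).prod (𝓡 n)) (𝓡 q) ∞ (fun w : ℝ × X => G a w.2) :=
    fun a => (hslice a).comp contMDiff_snd
  have hθ : ∀ i : ℕ, ContMDiff ((𝓘(ℝ, ℝ)).prod (𝓡 n)) 𝓘(ℝ, ℝ) ∞
      (fun w : ℝ × X => Real.smoothTransition ((M : ℝ) * w.1 - i)) := by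
    intro i
    have h1 : ContDiff ℝ ∞ (fun t : ℝ => Real.smoothTransition ((M : ℝ) * t - i)) :=
      Real.smoothTransition.contDiff.comp (by fun_prop)
    exact h1.contMDiff.comp contMDiff_fst
  have hG's : ContMDiff ((𝓘(ℝ, ℝ)).prod (𝓡 n)) (𝓡 q) ∞ G' := by
    refine (hsnd _).add ?_
    refine contMDiff_finsetSum fun i _ => ?_
    exact (hθ i).smul ((hsnd _).sub (hsnd _))
  -- the value at `t`
  have hval : ∀ t : ℝ, ∃ i < M, ∃ l ∈ Icc (0 : ℝ) 1, ∀ x : X,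
      G' (t, x) = (1 - l) • G ((i : ℝ) / M) x + l • G (((i + 1 : ℕ) : ℝ) / M) x := by
    intro t
    obtain ⟨i, hi, hij⟩ := exists_index M hM0 t
    refine ⟨i, hi, Real.smoothTransition ((M : ℝ) * t - i),
      ⟨Real.smoothTransition.nonneg _, Real.smoothTransition.le_one _⟩, fun x => ?_⟩
    have := tele M i hi (fun j => Real.smoothTransition ((M : ℝ) * t - j))
      (fun j => G ((j : ℝ) / M) x)
      (fun j hj => Real.smoothTransition.one_of_one_le ((hij j (hj.trans hi)).1 hj))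
      (fun j hj hj' => Real.smoothTransition.zero_of_nonpos ((hij j hj').2 hj))
    exact this
  have h0 : ∀ t x, t ≤ 0 → G' (t, x) = G 0 x := by
    intro t x ht
    have e1 : ∀ i ∈ Finset.range M, Real.smoothTransition ((M : ℝ) * t - i) •
        (G (((i + 1 : ℕ) : ℝ) / M) x - G ((i : ℝ) / M) x) = 0 := by
      intro i _
      rw [Real.smoothTransition.zero_of_nonpos, zero_smul]
      have h1 : (M : ℝ) * t ≤ 0 := mul_nonpos_of_nonneg_of_nonpos hM0'.le ht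
      have h2 : (0 : ℝ) ≤ i := Nat.cast_nonneg i
      linarith
    simp only [hG']
    rw [Finset.sum_eq_zero e1, add_zero]
    simp
  have h1 : ∀ t x, 1 ≤ t → G' (t, x) = G 1 x := by
    intro t x ht
    have e1 : ∑ i ∈ Finset.range M, Real.smoothTransition ((M : ℝ) * t - i) •
        (G (((i + 1 : ℕ) : ℝ) / M) x - G ((i : ℝ) / M) x) =
        G ((M : ℝ) / M) x - G (((0 : ℕ) : ℝ) / M) x := by
      rw [← Finset.sum_range_sub (fun j : ℕ => G ((j : ℝ) / M) x)]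
      refine Finset.sum_congr rfl fun i hi => ?_
      rw [Real.smoothTransition.one_of_one_le, one_smul]
      have h2 : ((i : ℝ) + 1) ≤ M := by exact_mod_cast Finset.mem_range.mp hi
      nlinarith
    simp only [hG']
    rw [e1, div_self hM0'.ne']
    abel
  refine ⟨fun w => π (G' w), ?_, ?_, ?_, ?_⟩
  · rintro ⟨t, x⟩
    obtain ⟨i, hi, l, hl, hx⟩ := hval t
    have h2 := (hgood' i hi l hl x).1
    refine ContMDiffAt.comp (t, x) ?_ (hG's (t, x))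
    rw [hx x]
    exact h2
  · intro t x
    obtain ⟨i, hi, l, hl, hx⟩ := hval t
    have h2 := (hgood' i hi l hl x).2
    simp only [hx]
    exact h2
  · intro t x ht
    change π (G' (t, x)) = _
    rw [h0 t x ht]
  · intro t x ht
    change π (G' (t, x)) = _
    rw [h1 t x ht]

end Pool.Agent.Y87.NP
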